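import Pool.Agent.Helper64.BKS.Stmts
import Pool.Agent.Helper57.REC.Stmts1

set_option autoImplicit false

/-! `st_PHI`: the Kummer character on the stabiliser of a root of unity. -/

open NumberField
open scoped Classical

namespace Pool.Agent.Helper18.BKS

open _root_.BKS
open BKA (Gal Zb Pl q Over Congr)

variable {F : Type} [Field F] [NumberField F]

/-- the fixed field of an open subgroup -/
theorem exists_fixed (H : Subgroup (Gal F)) (hH : IsOpen (H : Set (Gal F))) :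
    ∃ Z : IntermediateField F (AlgebraicClosure F), NumberField Z ∧
      (∀ σ ∈ H, ∀ z : Z, σ (z : AlgebraicClosure F) = z) ∧
      (∀ x : AlgebraicClosure F, (∀ σ ∈ H, σ x = x) → x ∈ Z) := by
  refine ⟨IntermediateField.fixedField H, ?_, ?_, ?_⟩
  · have h1 : (IntermediateField.fixedField H).fixingSubgroup = H :=
      InfiniteGalois.fixingSubgroup_fixedField ⟨H, Subgroup.isClosed_of_isOpen H hH⟩
    have h2 : FiniteDimensional F (IntermediateField.fixedField H) := by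
      rw [← InfiniteGalois.isOpen_iff_finite, h1]
      exact hH
    exact NumberField.of_module_finite F _
  · intro σ hσ z
    exact (IntermediateField.mem_fixedField_iff H _).mp z.2 σ hσ
  · intro x hx
    exact (IntermediateField.mem_fixedField_iff H _).mpr hx

/-- the inclusion of the integers of an intermediate field in the ring of all algebraic integers -/
noncomputable def incl (Z : IntermediateField F (AlgebraicClosure F)) [NumberField Z] :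
    𝓞 Z →+* Zb F :=
  ((algebraMap Z (AlgebraicClosure F)).comp (algebraMap (𝓞 Z) Z)).codRestrict (integralClosure ℤ (AlgebraicClosure F)) (by
    intro x
    exact (RingOfIntegers.isIntegral_coe x).map (algebraMap Z (AlgebraicClosure F)).toIntAlgHom)

omit [NumberField F] in
theorem incl_val (Z : IntermediateField F (AlgebraicClosure F)) [NumberField Z] (x : 𝓞 Z) :
    ((incl Z x : Zb F) : AlgebraicClosure F) = ((x : Z) : AlgebraicClosure F) := rfl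

omit [NumberField F] in
/-- a fixed algebraic integer comes from the integers of the fixed field -/
theorem exists_int (Z : IntermediateField F (AlgebraicClosure F)) [NumberField Z]
    (x : Zb F) (hx : (x : AlgebraicClosure F) ∈ Z) : ∃ z : 𝓞 Z, incl Z z = x := by
  have h1 : IsIntegral ℤ (⟨(x : AlgebraicClosure F), hx⟩ : Z) := by
    have h2 : IsIntegral ℤ (algebraMap Z (AlgebraicClosure F) ⟨(x : AlgebraicClosure F), hx⟩) := x.2
    exact (isIntegral_algebraMap_iff (algebraMap Z (AlgebraicClosure F)).injective).mp h2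
  exact ⟨⟨_, h1⟩, Subtype.ext rfl⟩

/-- the place under a prime -/
theorem exists_under (Z : IntermediateField F (AlgebraicClosure F)) [NumberField Z] (u : Pl F)
    (𝔓 : Ideal (Zb F)) (h : Over u 𝔓) : ∃ w : Pl Z, ∀ x : 𝓞 Z, x ∈ w.asIdeal ↔ incl Z x ∈ 𝔓 := by
  have hp := h.1
  obtain ⟨x, hx, hx0⟩ := Submodule.exists_mem_ne_zero_of_ne_bot u.ne_bot
  refine ⟨⟨𝔓.comap (incl Z), Ideal.comap_isPrime _ _, ?_⟩, fun x => Iff.rfl⟩
  intro hbot
  apply hx0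
  have hint : IsIntegral ℤ (algebraMap F (AlgebraicClosure F) (x : F)) :=
    (RingOfIntegers.isIntegral_coe x).map (algebraMap F (AlgebraicClosure F)).toIntAlgHom
  obtain ⟨z, hz⟩ := exists_int Z ⟨_, hint⟩ (Z.algebraMap_mem _)
  have h1 : (⟨algebraMap F (AlgebraicClosure F) (x : F), hint⟩ : Zb F) ∈ 𝔓 := (h.2 x _ rfl).mp hx
  rw [← hz] at h1
  have h2 : z ∈ (𝔓.comap (incl Z) : Ideal (𝓞 Z)) := h1
  rw [hbot, Ideal.mem_bot] at h2
  rw [h2, map_zero] at hz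
  have h3 := congrArg (fun t : Zb F => (t : AlgebraicClosure F)) hz
  have h4 : algebraMap F (AlgebraicClosure F) (x : F) = 0 := h3.symm
  rw [map_eq_zero] at h4
  exact RingOfIntegers.coe_eq_zero_iff.mp h4

omit [NumberField F] in
theorem overZ_of (Z : IntermediateField F (AlgebraicClosure F)) [NumberField Z]
    (w : Pl Z) (𝔓 : Ideal (Zb F)) (hp : 𝔓.IsPrime) (h : ∀ x : 𝓞 Z, x ∈ w.asIdeal ↔ incl Z x ∈ 𝔓) :
    OverZ Z w 𝔓 := by
  refine ⟨hp, fun x y hxy => ?_⟩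
  have : y = incl Z x := Subtype.ext hxy
  rw [this]
  exact h x

/-- finitely many places of `Z` lie over `u` -/
theorem finite_over (Z : IntermediateField F (AlgebraicClosure F)) [NumberField Z] (u : Pl F) :
    ∃ S : Finset (Pl Z), ∀ (𝔓 : Ideal (Zb F)), Over u 𝔓 → ∀ w : Pl Z,
      (∀ x : 𝓞 Z, x ∈ w.asIdeal ↔ incl Z x ∈ 𝔓) → w ∈ S := by
  obtain ⟨x, hx, hx0⟩ := Submodule.exists_mem_ne_zero_of_ne_bot u.ne_bot
  have hint : IsIntegral ℤ (algebraMap F (AlgebraicClosure F) (x : F)) :=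
    (RingOfIntegers.isIntegral_coe x).map (algebraMap F (AlgebraicClosure F)).toIntAlgHom
  obtain ⟨z, hz⟩ := exists_int Z ⟨_, hint⟩ (Z.algebraMap_mem _)
  have hz0 : z ≠ 0 := by
    rintro rfl
    apply hx0
    rw [map_zero] at hz
    have h3 := congrArg (fun t : Zb F => (t : AlgebraicClosure F)) hz
    have h4 : algebraMap F (AlgebraicClosure F) (x : F) = 0 := h3.symm
    rw [map_eq_zero] at h4
    exact RingOfIntegers.coe_eq_zero_iff.mp h4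
  have h1 : {w : Pl Z | w.asIdeal ∣ Ideal.span {z}}.Finite :=
    Ideal.finite_factors (by rw [Ne, Ideal.zero_eq_bot, Ideal.span_singleton_eq_bot]; exact hz0)
  refine ⟨h1.toFinset, fun 𝔓 h𝔓 w hw => ?_⟩
  rw [Set.Finite.mem_toFinset, Set.mem_ofPred_eq, Ideal.dvd_span_singleton, hw z, hz]
  exact (h𝔓.2 x _ rfl).mp hx

/-- two primes over the same place of the fixed field of `H` are conjugate under `H` -/
theorem conj_of_under (hTRA : ST_TRA) (H : Subgroup (Gal F)) (hH : IsOpen (H : Set (Gal F)))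
    (Z : IntermediateField F (AlgebraicClosure F)) [NumberField Z]
    (hZ : ∀ x : AlgebraicClosure F, (∀ σ ∈ H, σ x = x) → x ∈ Z) (w : Pl Z)
    (𝔓 𝔓' : Ideal (Zb F)) (hp : 𝔓.IsPrime) (hp' : 𝔓'.IsPrime)
    (h : ∀ x : 𝓞 Z, x ∈ w.asIdeal ↔ incl Z x ∈ 𝔓) (h' : ∀ x : 𝓞 Z, x ∈ w.asIdeal ↔ incl Z x ∈ 𝔓') :
    ∃ σ ∈ H, Tr σ 𝔓 𝔓' := by
  refine hTRA F H hH 𝔓 𝔓' hp hp' fun x hx => ?_
  obtain ⟨z, hz⟩ := exists_int Z x (hZ _ hx)
  rw [← hz, ← h, ← h']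

omit [NumberField F] in
theorem toAdd_eq_of_pow (ℓ : ℕ) (hℓ : ℓ.Prime) (ζ : AlgebraicClosure F) (hζ : IsPrimitiveRoot ζ ℓ)
    (a b : Multiplicative (ZMod ℓ)) (m : ℕ)
    (h : ζ ^ (Multiplicative.toAdd a).val = ζ ^ ((Multiplicative.toAdd b).val * m)) : a = b ^ m := by
  have : NeZero ℓ := ⟨hℓ.ne_zero⟩
  have h2 : (Multiplicative.toAdd a).val = ((Multiplicative.toAdd b).val * m) % ℓ := by
    refine hζ.pow_inj (ZMod.val_lt _) (Nat.mod_lt _ hℓ.pos) ?_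
    have h3 := pow_mod_orderOf ζ ((Multiplicative.toAdd b).val * m)
    rw [← hζ.eq_orderOf] at h3
    rw [h, h3]
  have h4 := congrArg (fun n : ℕ => (n : ZMod ℓ)) h2
  simp only [ZMod.natCast_zmod_val, ZMod.natCast_mod, Nat.cast_mul] at h4
  apply Multiplicative.toAdd.injective
  rw [h4, toAdd_pow, nsmul_eq_mul, mul_comm]

/-- the local statement at the places where `a` is close to `1` -/
theorem close_one (hTRA : ST_TRA) (hHEN : ST_HEN) (H : Subgroup (Gal F))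
    (hH : IsOpen (H : Set (Gal F)))
    (Z : IntermediateField F (AlgebraicClosure F)) [NumberField Z]
    (hZ1 : ∀ σ ∈ H, ∀ z : Z, σ (z : AlgebraicClosure F) = z)
    (hZ : ∀ x : AlgebraicClosure F, (∀ σ ∈ H, σ x = x) → x ∈ Z) (ℓ : ℕ) (hℓ : ℓ.Prime)
    (ζ : AlgebraicClosure F) (hζ : IsPrimitiveRoot ζ ℓ) (hHζ : ∀ σ ∈ H, σ ζ = ζ) (w : Pl Z) :
    ∃ N : ℕ, ∀ a : 𝓞 Z, a - 1 ∈ w.asIdeal ^ N → ∀ b : AlgebraicClosure F, b ≠ 0 →
      b ^ ℓ = ((a : Z) : AlgebraicClosure F) → ∀ ϕ : H →* Multiplicative (ZMod ℓ),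
      (∀ (σ : Gal F) (h : σ ∈ H), σ b = ζ ^ (Multiplicative.toAdd (ϕ ⟨σ, h⟩)).val * b) →
      ∀ 𝔓 : Ideal (Zb F), 𝔓.IsPrime → (∀ x : 𝓞 Z, x ∈ w.asIdeal ↔ incl Z x ∈ 𝔓) →
      ∀ (τ : Gal F) (hτ : τ ∈ H), τ ∈ Dec 𝔓 → ϕ ⟨τ, hτ⟩ = 1 := by
  by_cases hex : ∃ 𝔓 : Ideal (Zb F), 𝔓.IsPrime ∧ ∀ x : 𝓞 Z, x ∈ w.asIdeal ↔ incl Z x ∈ 𝔓
  · obtain ⟨𝔓₀, hp₀, h₀⟩ := hex
    obtain ⟨N, hN⟩ := hHEN F Z w 𝔓₀ (overZ_of Z w 𝔓₀ hp₀ h₀) ℓ hℓ ζ hζ 1 one_ne_zero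
    refine ⟨N, fun a ha b hb0 hb ϕ hϕ 𝔓 hp h τ hτ hτD => ?_⟩
    obtain ⟨g, hg, htr⟩ := conj_of_under hTRA H hH Z hZ w 𝔓 𝔓₀ hp hp₀ h h₀
    have h1 : g * τ * g⁻¹ ∈ Dec 𝔓₀ := (htr.dec τ).mpr hτD
    have h2 : g * τ * g⁻¹ ∈ H := H.mul_mem (H.mul_mem hg hτ) (H.inv_mem hg)
    have h3 := hN a ha b 1 hb (by simp) (g * τ * g⁻¹) (hZ1 _ h2) (hHζ _ h2) h1
    rw [mul_one, map_one, mul_one, hϕ _ h2] at h3
    have h4 : ζ ^ (Multiplicative.toAdd (ϕ ⟨g * τ * g⁻¹, h2⟩)).val = 1 := by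
      have h5 : ζ ^ (Multiplicative.toAdd (ϕ ⟨g * τ * g⁻¹, h2⟩)).val * b = 1 * b := by
        rw [h3, one_mul]
      exact mul_right_cancel₀ hb0 h5
    have h6 : ϕ ⟨g * τ * g⁻¹, h2⟩ = 1 := by
      have := toAdd_eq_of_pow ℓ hℓ ζ hζ (ϕ ⟨g * τ * g⁻¹, h2⟩) 1 1 (by
        rw [h4]
        simp)
      rw [this, one_pow]
    have h7 : (⟨g * τ * g⁻¹, h2⟩ : H) = ⟨g, hg⟩ * ⟨τ, hτ⟩ * ⟨g, hg⟩⁻¹ := rfl
    rw [h7, map_mul, map_mul, map_inv, mul_comm (ϕ ⟨g, hg⟩), mul_inv_cancel_right] at h6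
    exact h6
  · refine ⟨0, fun a ha b hb0 hb ϕ hϕ 𝔓 hp h τ hτ hτD => ?_⟩
    exact absurd ⟨𝔓, hp, h⟩ hex

/-- complex conjugations -/
theorem cc_trivial (H : Subgroup (Gal F)) (Z : IntermediateField F (AlgebraicClosure F))
    [NumberField Z] (hZ1 : ∀ σ ∈ H, ∀ z : Z, σ (z : AlgebraicClosure F) = z) (ℓ : ℕ)
    (hℓ : ℓ.Prime) (ζ : AlgebraicClosure F) (hζ : IsPrimitiveRoot ζ ℓ) (a : 𝓞 Z) (ha0 : a ≠ 0)
    (ha : ∀ σ : Z →+* ℝ, 0 < σ (a : Z)) (b : AlgebraicClosure F)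
    (hb : b ^ ℓ = ((a : Z) : AlgebraicClosure F)) (ϕ : H →* Multiplicative (ZMod ℓ))
    (hϕ : ∀ (σ : Gal F) (h : σ ∈ H), σ b = ζ ^ (Multiplicative.toAdd (ϕ ⟨σ, h⟩)).val * b)
    (c : Gal F) (hc : c ∈ H) (hcc : CC c) : ϕ ⟨c, hc⟩ = 1 := by
  have : NeZero ℓ := ⟨hℓ.ne_zero⟩
  have hb0 : b ≠ 0 := by
    rintro rfl
    rw [zero_pow hℓ.ne_zero] at hb
    apply ha0
    have h1 : (a : Z) = 0 := by
      apply Subtype.ext
      rw [← hb]
      rfl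
    exact RingOfIntegers.coe_eq_zero_iff.mp h1
  have h2 : ϕ ⟨c, hc⟩ ^ 2 = 1 := by
    rw [← map_pow, pow_two]
    have h3 : (⟨c, hc⟩ * ⟨c, hc⟩ : H) = 1 := Subtype.ext hcc.sq
    rw [h3, map_one]
  have h3 : ϕ ⟨c, hc⟩ ^ ℓ = 1 := by
    apply Multiplicative.toAdd.injective
    rw [toAdd_pow, nsmul_eq_mul, toAdd_one]
    simp
  rcases hℓ.eq_two_or_odd' with h4 | h4
  · subst h4
    obtain ⟨e, he⟩ := hcc
    set e' : Z →+* ℂ := e.comp (algebraMap Z (AlgebraicClosure F)) with he'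
    have hreal : ComplexEmbedding.IsReal e' := by
      rw [ComplexEmbedding.isReal_iff]
      ext z
      show starRingEnd ℂ (e (z : AlgebraicClosure F)) = e (z : AlgebraicClosure F)
      rw [← he, hZ1 c hc z]
    have h5 := ha hreal.embedding
    have h6 : (e b) ^ 2 = ((hreal.embedding (a : Z) : ℝ) : ℂ) := by
      rw [← map_pow, hb, hreal.coe_embedding_apply]
      rfl
    set r : ℝ := hreal.embedding (a : Z) with hr
    have h7 : (e b).im = 0 := by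
      have h8 := congrArg Complex.im h6
      have h9 := congrArg Complex.re h6
      rw [pow_two, Complex.mul_im, Complex.ofReal_im] at h8
      rw [pow_two, Complex.mul_re, Complex.ofReal_re] at h9
      by_contra h10
      have h11 : (e b).re = 0 := by
        have h12 : (e b).re * (e b).im = 0 := by linarith
        rcases mul_eq_zero.mp h12 with h13 | h13
        · exact h13
        · exact absurd h13 h10
      rw [h11] at h9
      nlinarith [sq_nonneg (e b).im]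
    have h8 : c b = b := by
      apply e.injective
      rw [he]
      exact Complex.conj_eq_iff_im.mpr h7
    rw [hϕ c hc] at h8
    have h9 : ζ ^ (Multiplicative.toAdd (ϕ ⟨c, hc⟩)).val = 1 := by
      have h5 : ζ ^ (Multiplicative.toAdd (ϕ ⟨c, hc⟩)).val * b = 1 * b := by
        rw [h8, one_mul]
      exact mul_right_cancel₀ hb0 h5
    have := toAdd_eq_of_pow 2 hℓ ζ hζ (ϕ ⟨c, hc⟩) 1 1 (by
      rw [h9]
      simp)
    rw [this, one_pow]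
  · have h5 : orderOf (ϕ ⟨c, hc⟩) ∣ 2 := orderOf_dvd_of_pow_eq_one h2
    have h6 : orderOf (ϕ ⟨c, hc⟩) ∣ ℓ := orderOf_dvd_of_pow_eq_one h3
    have h7 : orderOf (ϕ ⟨c, hc⟩) ∣ 1 := by
      have h8 : Nat.Coprime 2 ℓ := by
        rw [Nat.coprime_two_left]
        exact h4
      rw [← h8]
      exact Nat.dvd_gcd h5 h6
    exact orderOf_eq_one_iff.mp (Nat.dvd_one.mp h7)

theorem st_PHI (hTRA : ST_TRA) (hKUM : ST_KUM) (hKUC : ST_KUC) (hHEN : ST_HEN)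
    (hAPX : REC.ST_APX) : ST_PHI := by
  intro F _ _ Γ U hU hUΓ ℓ hℓ ζ hζ v 𝔓 h𝔓 hDU φ hφ m Q hQ
  have : NeZero ℓ := ⟨hℓ.ne_zero⟩
  set H : Subgroup (Gal F) := U ⊓ MulAction.stabilizer (Gal F) ζ with hHdef
  have hHU : H ≤ U := inf_le_left
  have hHζ : ∀ σ ∈ H, σ ζ = ζ := fun σ hσ => hσ.2
  have hH : IsOpen (H : Set (Gal F)) := by
    have h1 : IsOpen ((IntermediateField.adjoin F {ζ}).fixingSubgroup : Set (Gal F)) := by
      have : FiniteDimensional F (IntermediateField.adjoin F {ζ}) :=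
        IntermediateField.adjoin.finiteDimensional (Algebra.IsIntegral.isIntegral ζ)
      exact IntermediateField.fixingSubgroup_isOpen _
    have h2 : IsOpen ((U ⊓ (IntermediateField.adjoin F {ζ}).fixingSubgroup : Subgroup (Gal F)) :
        Set (Gal F)) := by
      rw [Subgroup.coe_inf]
      exact hU.inter h1
    refine Subgroup.isOpen_mono ?_ h2
    rintro σ ⟨h3, h4⟩
    refine ⟨h3, ?_⟩
    have h5 : σ ∈ (IntermediateField.adjoin F {ζ}).fixingSubgroup := h4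
    rw [IntermediateField.mem_fixingSubgroup_iff] at h5
    exact h5 ζ (IntermediateField.mem_adjoin_simple_self F ζ)
  obtain ⟨Z, hZn, hZ1, hZ⟩ := exists_fixed H hH
  -- the element β
  obtain ⟨β, hβ0, hβ⟩ := hKUM F H hH ℓ hℓ ζ hζ hHζ (φ.comp (Subgroup.inclusion hHU)) (by
    obtain ⟨M, hM, hM1⟩ := hφ
    exact ⟨M, hM, fun σ h hσ => hM1 σ (hHU h) hσ⟩)
  have hβfix : ∀ σ ∈ H, σ ((β ^ (m * ℓ) : Zb F) : AlgebraicClosure F) =
      ((β ^ (m * ℓ) : Zb F) : AlgebraicClosure F) := by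
    intro σ hσ
    have h1 : ((β ^ (m * ℓ) : Zb F) : AlgebraicClosure F) = (β : AlgebraicClosure F) ^ (m * ℓ) := rfl
    rw [h1, map_pow, hβ σ hσ, mul_pow, ← pow_mul, mul_comm m ℓ, ← mul_assoc, mul_comm _ ℓ,
      mul_assoc, pow_mul ζ, hζ.pow_eq_one, one_pow, one_mul]
  obtain ⟨α, hα⟩ := exists_int Z (β ^ (m * ℓ)) (hZ _ hβfix)
  have hα' : (((α : Z)) : AlgebraicClosure F) = ((β : AlgebraicClosure F) ^ m) ^ ℓ := by
    rw [← pow_mul]
    have := congrArg (fun t : Zb F => (t : AlgebraicClosure F)) hα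
    exact this
  have hβ0' : (β : AlgebraicClosure F) ≠ 0 := by
    intro h
    exact hβ0 (Subtype.ext h)
  have hα0 : α ≠ 0 := by
    rintro rfl
    have h1 : ((β : AlgebraicClosure F) ^ m) ^ ℓ = 0 := by
      rw [← hα']
      simp
    exact pow_ne_zero _ (pow_ne_zero _ hβ0') h1
  -- the places
  obtain ⟨w₀, hw₀⟩ := exists_under Z v 𝔓 h𝔓
  obtain ⟨N₀, hN₀⟩ := hHEN F Z w₀ 𝔓 (overZ_of Z w₀ 𝔓 h𝔓.1 hw₀) ℓ hℓ ζ hζ α hα0
  choose Nw hNw using fun w : Pl Z => close_one hTRA hHEN H hH Z hZ1 hZ ℓ hℓ ζ hζ hHζ w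
  have hQ' : ∀ 𝔔 : Ideal (Zb F), 𝔔 ∈ insert 𝔓 Q → ∃ u : Pl F, Over u 𝔔 := by
    intro 𝔔 h𝔔
    rcases Finset.mem_insert.mp h𝔔 with h | h
    · exact ⟨v, h ▸ h𝔓⟩
    · exact (hQ 𝔔 h).1
  have : Nonempty (Pl F) := ⟨v⟩
  choose! u hu using hQ'
  choose S hS using fun u : Pl F => finite_over Z u
  set T : Finset (Pl Z) := (insert 𝔓 Q).biUnion (fun 𝔔 => S (u 𝔔)) with hT
  set N : ℕ := N₀ + ∑ w ∈ T, Nw w with hN
  have hNw' : ∀ w ∈ T, Nw w ≤ N := by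
    intro w hw
    have := Finset.single_le_sum (f := Nw) (fun _ _ => Nat.zero_le _) hw
    omega
  obtain ⟨a, ha0, hac, hat⟩ := hAPX Z (insert w₀ T) N (fun w => if w = w₀ then α else 1)
    (fun _ => 1) (fun _ => one_ne_zero)
  have hat' : ∀ σ : Z →+* ℝ, 0 < σ (a : Z) := by
    intro σ
    have := hat σ
    rwa [one_mul] at this
  obtain ⟨b, hb⟩ := IsAlgClosed.exists_pow_nat_eq (((a : Z)) : AlgebraicClosure F) hℓ.pos
  have ha0' : (((a : Z)) : AlgebraicClosure F) ≠ 0 := by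
    intro h
    apply ha0
    have h1 : (a : Z) = 0 := Subtype.ext h
    exact RingOfIntegers.coe_eq_zero_iff.mp h1
  have hb0 : b ≠ 0 := by
    rintro rfl
    apply ha0'
    rw [← hb, zero_pow hℓ.ne_zero]
  obtain ⟨ϕ, hϕc, hϕ⟩ := hKUC F H ℓ hℓ ζ hζ hHζ b hb0 (by
    intro σ hσ
    rw [hb]
    exact hZ1 σ hσ _)
  -- triviality at the other places
  have key : ∀ 𝔔 ∈ insert 𝔓 Q, ∀ g : Gal F,
      (∀ h ∈ H, ¬ Tr (g * h⁻¹) 𝔓 𝔔) → ∀ σ ∈ Dec 𝔔, ∀ h : g⁻¹ * σ * g ∈ H,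
        ϕ ⟨g⁻¹ * σ * g, h⟩ = 1 := by
    intro 𝔔 h𝔔 g hg σ hσ h
    obtain ⟨𝔓₁, h𝔓₁⟩ := Tr.exists g⁻¹ 𝔔
    have hover : Over (u 𝔔) 𝔓₁ := h𝔓₁.over (hu 𝔔 h𝔔)
    obtain ⟨w₁, hw₁⟩ := exists_under Z (u 𝔔) 𝔓₁ hover
    have hw₁T : w₁ ∈ T := by
      rw [hT, Finset.mem_biUnion]
      exact ⟨𝔔, h𝔔, hS (u 𝔔) 𝔓₁ hover w₁ hw₁⟩
    have hne : w₁ ≠ w₀ := by
      rintro rfl
      obtain ⟨h', hh', htr⟩ := conj_of_under hTRA H hH Z hZ w₁ 𝔓₁ 𝔓 hover.1 h𝔓.1 hw₁ hw₀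
      refine hg h' hh' ?_
      have h1 : Tr (h' * g⁻¹) 𝔔 𝔓 := h𝔓₁.mul htr
      have h2 := h1.inv
      rwa [mul_inv_rev, inv_inv] at h2
    have h1 := hac w₁ (Finset.mem_insert_of_mem hw₁T)
    rw [if_neg hne] at h1
    have h2 : a - 1 ∈ w₁.asIdeal ^ Nw w₁ := Ideal.pow_le_pow_right (hNw' w₁ hw₁T) h1
    refine hNw w₁ a h2 b hb0 hb ϕ hϕ 𝔓₁ hover.1 hw₁ _ h ?_
    have h3 := (h𝔓₁.dec σ).mpr hσ
    rwa [inv_inv] at h3
  refine ⟨ϕ, hϕc, ?_, ?_, ?_, ?_⟩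
  · intro σ h h' hσ
    have h1 := hac w₀ (Finset.mem_insert_self _ _)
    rw [if_pos rfl] at h1
    have h2 := hN₀ a (Ideal.pow_le_pow_right (by omega) h1) b ((β : AlgebraicClosure F) ^ m) hb
      hα'.symm σ (hZ1 σ h) (hHζ σ h) hσ
    rw [hϕ σ h, map_pow, hβ σ h, mul_pow, ← pow_mul] at h2
    refine toAdd_eq_of_pow ℓ hℓ ζ hζ _ _ m ?_
    have h3 : b * (β : AlgebraicClosure F) ^ m ≠ 0 := mul_ne_zero hb0 (pow_ne_zero _ hβ0')
    apply mul_right_cancel₀ h3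
    have h4 : ζ ^ (Multiplicative.toAdd (ϕ ⟨σ, h⟩)).val * (b * (β : AlgebraicClosure F) ^ m) =
        ζ ^ (Multiplicative.toAdd (ϕ ⟨σ, h⟩)).val * b * (β : AlgebraicClosure F) ^ m := by ring
    rw [h4, h2]
    have h5 : (φ.comp (Subgroup.inclusion hHU)) ⟨σ, h⟩ = φ ⟨σ, h'⟩ := rfl
    rw [h5]
    ring
  · intro g hg hgd σ hσ h
    refine key 𝔓 (Finset.mem_insert_self _ _) g ?_ σ hσ h
    intro h' hh' htr
    refine hgd (g * h'⁻¹) ⟨?_, htr⟩ h' hh' (by group)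
    exact Γ.mul_mem hg (Γ.inv_mem (hUΓ (hHU hh')))
  · intro 𝔔 h𝔔 g hg σ hσ h
    refine key 𝔔 (Finset.mem_insert_of_mem h𝔔) g ?_ σ hσ h
    intro h' hh' htr
    exact (hQ 𝔔 h𝔔).2 _ (Γ.mul_mem hg (Γ.inv_mem (hUΓ (hHU hh')))) htr
  · intro c h hc
    exact cc_trivial H Z hZ1 ℓ hℓ ζ hζ a ha0 hat' b hb ϕ hϕ c h hc

end Pool.Agent.Helper18.BKS

namespace BKS

theorem st_PHI (hTRA : ST_TRA) (hKUM : ST_KUM) (hKUC : ST_KUC) (hHEN : ST_HEN)
    (hAPX : REC.ST_APX) : ST_PHI :=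
  Pool.Agent.Helper18.BKS.st_PHI hTRA hKUM hKUC hHEN hAPX

end BKS
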